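import Pool.Agent.H37.AT3

set_option autoImplicit false

open Pool.Agent.H38.NP Pool.Agent.H37.AT

/-- Deciding whether the Alon-Tarsi number is at most `k` is NP-hard. -/
theorem Pool.Agent.Results.MP_f2fc00_lc.Hard.result :
    NPHardOn (fun p : List (List Bool) × ℕ => IsAdjM p.1) (fun p => AT (gr p.1) ≤ p.2) :=
  hard
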